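import Pool.Agent.Helper45.FG.All2

set_option autoImplicit false

/-!
# The dimension of a fusion category with an object of given dimension is not polynomially bounded

Let `K` be a real Galois number field of degree `m ≥ 3` (for instance any real subfield of degree
at least three of a cyclotomic field). A candidate of `K` is a positive algebraic integer of `K`
which is largest among its conjugates. There is `c > 0`, depending only on `K`, such that for every
real number `B ≥ 1 / c` there is a candidate `β` of `K` with `B ≤ β ≤ B + 1` such that every
fusion ring (in particular: every fusion category) with an object of Frobenius-Perron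
dimension `β` has dimension `F` (the sum of the squares of the dimensions of its simple objects) with
`c * β ^ ((m + 1) * (m - 2)) ≤ F ^ (4 * (m - 1))`.

So `F` is at least a constant times `β ^ κ` with `κ = (m + 1) (m - 2) / (4 (m - 1))`, which tends to
infinity with the degree `m`. The Frobenius-Perron dimension of an object is the largest real
eigenvalue of the matrix of left multiplication by the object.

The proof uses the following gap inequality for a simple object `X` of a fusion ring of
dimension `F` and a complex character `χ` with `χ(X) ≠ d(X)`:
`d(X) ^ 2 ≤ 2 * (d(X) - Re χ(X)) * F ^ 2` (`Pool.Agent.Helper28.FG.hGAR`).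
-/

namespace Pool.Agent.Results.MP_7221b2_al.LargeDimension

open Pool.Agent.Helper45.FG

theorem result (K : IntermediateField ℚ ℝ) [FiniteDimensional ℚ K] [IsGalois ℚ K]
    (hK : 3 ≤ Module.finrank ℚ K) :
    ∃ c : ℝ, 0 < c ∧ ∀ B : ℝ, 1 ≤ c * B →
      ∃ β : K, Cand K β ∧ B ≤ (β : ℝ) ∧ (β : ℝ) ≤ B + 1 ∧
        ∀ (I : Type) [Fintype I] (R : FusionRing I) (n : I → ℕ), IsFP R n (β : ℝ) →
          ∀ d : I → ℝ, (∀ i, IsFP R (simple i) (d i)) →
            c * (β : ℝ) ^ ((Module.finrank ℚ K + 1) * (Module.finrank ℚ K - 2)) ≤
              (∑ i, d i ^ 2) ^ (4 * (Module.finrank ℚ K - 1)) :=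
  hbig K inferInstance inferInstance hK

end Pool.Agent.Results.MP_7221b2_al.LargeDimension
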