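import Pool.Agent.Helper45.FG.All

set_option autoImplicit false

/-!
# Cyclotomic integers which can only be dimensions of simple objects

Let `K` be a real Galois number field of degree `m ≥ 3` (for instance any real subfield of degree at
least three of a cyclotomic field). A candidate of `K` is a positive algebraic integer of `K`
which is largest among its conjugates. There is a constant `c > 0`, depending only on `K`, such that
for every real number `B ≥ 1 / c` there is a candidate `β` of `K` with

* `c * B ≤ β ^ 2` and `β ≤ B`;
* for some automorphism `t0 ≠ 1` of `K` one has `c * B * (β - t β) ^ (m - 2) ≤ 1` for all `t ≠ t0`,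
  `t β < β` for some `t ≠ 1, t0`, and `t0 β < 2 - β` (so the direction of `β` is close to the extreme
  ray of the cone of candidates whose coordinate at `t0` is `-1` and whose other coordinates are `1`);
* whenever `β` is the Frobenius-Perron dimension of an object of a fusion ring (in particular: of a
  fusion category), this object is simple.

So infinitely many candidates of `K` can only be realised by simple objects, of fusion
categories of dimension at least `β ^ 2`. The Frobenius-Perron dimension of an object is
the largest real eigenvalue of the matrix of left multiplication by the object.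
-/

namespace Pool.Agent.Results.MP_7221b2_al.NecessarilySimple

open Pool.Agent.Helper45.FG

theorem result (K : IntermediateField ℚ ℝ) [FiniteDimensional ℚ K] [IsGalois ℚ K]
    (hK : 3 ≤ Module.finrank ℚ K) :
    ∃ c : ℝ, 0 < c ∧ ∀ B : ℝ, 1 ≤ c * B →
      ∃ β : K, Cand K β ∧ c * B ≤ (β : ℝ) ^ 2 ∧ (β : ℝ) ≤ B ∧
        (∃ t0 : K ≃ₐ[ℚ] K, t0 ≠ 1 ∧
          (∀ t : K ≃ₐ[ℚ] K, t ≠ t0 →
            c * B * ((β : ℝ) - ((t β : K) : ℝ)) ^ (Module.finrank ℚ K - 2) ≤ 1) ∧
          (∃ t : K ≃ₐ[ℚ] K, t ≠ 1 ∧ t ≠ t0 ∧ ((t β : K) : ℝ) < (β : ℝ)) ∧
          ((t0 β : K) : ℝ) < 2 - (β : ℝ)) ∧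
        ∀ (I : Type) [Fintype I] (R : FusionRing I) (n : I → ℕ), IsFP R n (β : ℝ) →
          ∃ i, n = simple i :=
  hsim K inferInstance inferInstance hK

end Pool.Agent.Results.MP_7221b2_al.NecessarilySimple
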