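import Pool.Agent.Helper45.FG.All

set_option autoImplicit false

/-!
# Real number fields whose candidates are dimensions of objects of one fusion ring

Let `K` be a real Galois number field (for instance any real subfield of a cyclotomic field). A
candidate of `K` is a positive algebraic integer of `K` which is largest among its conjugates. The
following are equivalent:

1. the degree of `K` is at most two;
2. there is one fusion ring such that every candidate of `K` is the Frobenius-Perron dimension of one
   of its objects;
3. there is `γ > 0` such that every candidate of `K` is the dimension of an object of a fusion ring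
   with Galois gap `γ`.

A fusion ring has Galois gap `γ` if for every simple object of dimension `x`, every conjugate of
`x` has absolute value equal to `x` or at most `x - γ`. Every fusion ring has a positive Galois gap; a
product of fusion rings with Galois gap `γ` has Galois gap `γ`; fusion rings in which the squares
of the dimensions of the simple objects are integers (for instance the weakly integral ones) have
all Galois gaps. So if `K` has degree at least three then no finite set of fusion rings, together with
all weakly integral fusion rings and all products of these, realises all candidates of `K`.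
-/

namespace Pool.Agent.Results.MP_7221b2_al.OneFusionRing

open Pool.Agent.Helper45.FG

theorem result :
    (∀ (K : IntermediateField ℚ ℝ), FiniteDimensional ℚ K → IsGalois ℚ K →
      List.TFAE [
        Module.finrank ℚ K ≤ 2,
        ∃ (I : Type) (_ : Fintype I) (R : FusionRing I),
          ∀ β : K, Cand K β → ∃ n : I → ℕ, IsFP R n (β : ℝ),
        ∃ γ : ℝ, 0 < γ ∧ ∀ β : K, Cand K β →
          ∃ (I : Type) (_ : Fintype I) (R : FusionRing I) (n : I → ℕ),
            HasGap γ R ∧ IsFP R n (β : ℝ)]) ∧
    (∀ (I : Type) [Fintype I] (R : FusionRing I), ∃ γ : ℝ, 0 < γ ∧ HasGap γ R) ∧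
    (∀ (γ : ℝ), 0 < γ → ∀ (I J : Type) [Fintype I] [Fintype J] (R : FusionRing I)
      (S : FusionRing J), HasGap γ R → HasGap γ S → ∃ T : FusionRing (I × J),
        (∀ p q r, T.N p q r = R.N p.1 q.1 r.1 * S.N p.2 q.2 r.2) ∧ HasGap γ T) ∧
    (∀ (I : Type) [Fintype I] (R : FusionRing I),
      (∀ (i : I) (x : ℝ), IsFP R (simple i) x → ∃ m : ℕ, x ^ 2 = m) →
        ∀ γ : ℝ, 0 < γ → HasGap γ R) :=
  ⟨fun K h1 h2 => tfae_of hall K h1 h2, hall.2.1, hall.2.2.1, hall.2.2.2⟩

end Pool.Agent.Results.MP_7221b2_al.OneFusionRing
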