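import Pool.Agent.Helper45.FG.All4

set_option autoImplicit false

/-!
# Necessarily simple candidates at every scale

Let `K` be a real Galois number field (for instance a real subfield of a cyclotomic field) and
let `H` be a subgroup of its Galois group, different from the trivial group and from the whole
group, of index `k` (such a subgroup exists if the degree of `K` is not a prime number and not 1). A
candidate of `K` is a positive algebraic integer of `K` which is largest among its conjugates.
There is a constant `c > 0`, depending only on `K` and `H`, such that for every `B ≥ 1 / c` there is a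
candidate `β` of `K` with

* `c * B ≤ β` and `β ≤ B`;
* `c * β ^ (k - 1) * (β - t β) ≤ 1` for all `t` in `H`, `s β < β` for some `s` in `H`, and
  `t β < 2 - β` for some `t` not in `H`;
* every object of Frobenius-Perron dimension `β` of every fusion ring (in particular: of every
  fusion category) is simple, and the dimension `F` of this fusion ring satisfies
  `c * β ^ (k + 1) ≤ F ^ 2`.

The Frobenius-Perron dimension of an object is the largest real eigenvalue of the matrix of
left multiplication by the object; `F` is the sum of the squares of the dimensions of the simple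
objects.
-/

namespace Pool.Agent.Results.MP_7221b2_al.SimpleAtEveryScale

open Pool.Agent.Helper45.FG

theorem result (K : IntermediateField ℚ ℝ) [FiniteDimensional ℚ K] [IsGalois ℚ K]
    (H : Subgroup (K ≃ₐ[ℚ] K)) (hH : H ≠ ⊥) (hH' : H ≠ ⊤) :
    ∃ c : ℝ, 0 < c ∧ ∀ B : ℝ, 1 ≤ c * B →
      ∃ β : K, Cand K β ∧ c * B ≤ (β : ℝ) ∧ (β : ℝ) ≤ B ∧
        (∀ t ∈ H, c * (β : ℝ) ^ (H.index - 1) * ((β : ℝ) - ((t β : K) : ℝ)) ≤ 1) ∧
        (∃ s ∈ H, ((s β : K) : ℝ) < (β : ℝ)) ∧
        (∃ t : K ≃ₐ[ℚ] K, t ∉ H ∧ ((t β : K) : ℝ) < 2 - (β : ℝ)) ∧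
        ∀ (I : Type) [Fintype I] (R : FusionRing I) (n : I → ℕ), IsFP R n (β : ℝ) →
          (∃ i, n = simple i) ∧
          ∀ d : I → ℝ, (∀ i, IsFP R (simple i) (d i)) →
            c * (β : ℝ) ^ (H.index + 1) ≤ (∑ i, d i ^ 2) ^ 2 :=
  hsca K inferInstance inferInstance H hH hH'

end Pool.Agent.Results.MP_7221b2_al.SimpleAtEveryScale
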